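import Pool.Agent.Work.MP_559b1d_an.MainNeg
import Pool.Agent.Work.MP_559b1d_an.Uniq

/-!
Condition (3) does not imply theta-strong ellipticity on curves with corners.
The curve is the boundary of the triangle with vertices `0, 1/3, i/4`; the coefficients are the
constants `a = 1 + ε`, `b = 1` with `0 < ε ≤ 10^(-7)`.
-/

set_option autoImplicit false
open MeasureTheory Filter Topology Set
open Pool.Agent.MP559

namespace Pool.Agent.Results.MP_559b1d_an.CornerCounterexample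

lemma gam_corner : IsCorner gam ((0 : ℝ) : AddCircle (1:ℝ)) := by
  refine ⟨1, -Complex.I, aff1.right ⟨le_rfl, by norm_num⟩, ?_, ?_⟩
  · have h : ((0 : ℝ) : AddCircle (1:ℝ)) = ((1 : ℝ) : AddCircle (1:ℝ)) := by
      rw [AddCircle.coe_period, AddCircle.coe_zero]
    rw [h]
    exact aff3.left ⟨by norm_num, le_rfl⟩
  · intro h
    have := congrArg Complex.re h
    simp at this

theorem result :
    ∃ γ : AddCircle (1:ℝ) → ℂ, IsCornerCurve γ ∧ (∃ t, IsCorner γ t) ∧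
      ∃ S : L2Op (AddCircle (1:ℝ)), IsCauchySingular γ S ∧
        (∀ S' : L2Op (AddCircle (1:ℝ)), IsCauchySingular γ S' → S' = S) ∧
        ∀ ε : ℝ, 0 < ε → ε ≤ 1 / 10000000 →
          ∃ a b : AddCircle (1:ℝ) → ℂ, (∀ t, a t = 1 + ε) ∧ (∀ t, b t = 1) ∧
            IsPC a ∧ IsPC b ∧ Condition3 a b ∧
            ∃ A : L2Op (AddCircle (1:ℝ)),
              IsLeftOp a b S A ∧ IsRightOp a b S A ∧ ¬ ThetaStronglyElliptic A := by
  obtain ⟨S, hS⟩ := exists_S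
  refine ⟨gam, gam_isCorner, ⟨_, gam_corner⟩, ⟨S⟩, (cauchy_iff _ _).mpr hS,
    fun S' hS' => ?_, ?_⟩
  · have h := cauchy_unique ((cauchy_iff _ _).mp hS') hS
    cases S'
    congr
  intro ε hε hε'
  refine ⟨fun _ => ((1 + ε : ℝ) : ℂ), fun _ => 1, fun t => by push_cast; rfl, fun t => rfl,
    const_pc _, const_pc _, cond3_const hε,
    ⟨((1 + ε : ℝ) : ℂ) • ContinuousLinearMap.id ℂ _ + S⟩, ?_, ?_, ?_⟩
  · intro f g hfg
    have hf := hfg.1
    refine acts_of_ae (F := hf.toLp f) hf.coeFn_toLp ?_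
    have h1 : (((1 + ε : ℝ) : ℂ) • ContinuousLinearMap.id ℂ
        (Lp ℂ 2 (volume : Measure (AddCircle (1:ℝ)))) + S) (hf.toLp f) =
        ((1 + ε : ℝ) : ℂ) • hf.toLp f + S (hf.toLp f) := rfl
    show (((1 + ε : ℝ) : ℂ) • ContinuousLinearMap.id ℂ
        (Lp ℂ 2 (volume : Measure (AddCircle (1:ℝ)))) + S) (hf.toLp f) =ᵐ[volume] _
    rw [h1]
    filter_upwards [Lp.coeFn_add (((1 + ε : ℝ) : ℂ) • hf.toLp f) (S (hf.toLp f)),
      Lp.coeFn_smul ((1 + ε : ℝ) : ℂ) (hf.toLp f), hf.coeFn_toLp,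
      acts_ae (S := ⟨S⟩) hf.coeFn_toLp hfg] with s e1 e2 e3 e4
    rw [e1, Pi.add_apply, e2, Pi.smul_apply, smul_eq_mul, one_mul, e3, e4]
  · intro f g hf hfg
    refine acts_of_ae (F := hf.toLp f) hf.coeFn_toLp ?_
    have h1 : (((1 + ε : ℝ) : ℂ) • ContinuousLinearMap.id ℂ
        (Lp ℂ 2 (volume : Measure (AddCircle (1:ℝ)))) + S) (hf.toLp f) =
        ((1 + ε : ℝ) : ℂ) • hf.toLp f + S (hf.toLp f) := rfl
    show (((1 + ε : ℝ) : ℂ) • ContinuousLinearMap.id ℂ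
        (Lp ℂ 2 (volume : Measure (AddCircle (1:ℝ)))) + S) (hf.toLp f) =ᵐ[volume] _
    rw [h1]
    have h2 : hf.toLp f =ᵐ[volume] fun s => 1 * f s := by
      filter_upwards [hf.coeFn_toLp] with s e1
      rw [e1, one_mul]
    filter_upwards [Lp.coeFn_add (((1 + ε : ℝ) : ℂ) • hf.toLp f) (S (hf.toLp f)),
      Lp.coeFn_smul ((1 + ε : ℝ) : ℂ) (hf.toLp f), hf.coeFn_toLp,
      acts_ae (S := ⟨S⟩) h2 hfg] with s e1 e2 e3 e4
    rw [e1, Pi.add_apply, e2, Pi.smul_apply, smul_eq_mul, e3, e4]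
  · intro h
    exact main_neg hε hε' hS (fun f => rfl) (theta_old h)

end Pool.Agent.Results.MP_559b1d_an.CornerCounterexample
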